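import Pool.Agent.H9Disc.Main

open Finset

namespace Pool.Agent.Results.MP_164296_co.BeyondSqrt

open Pool.Agent.H9Disc

lemma event : ∀ᶠ k : ℕ in Filter.atTop, 100 ≤ (k : ℝ) ^ (1 / 10 : ℝ) ∧
    Real.log ((k : ℝ) ^ (1 / 10 : ℝ)) ≤ (k : ℝ) ^ (1 / 10 : ℝ) / 16 := by
  have h1 : Filter.Tendsto (fun k : ℕ => (k : ℝ) ^ (1 / 10 : ℝ)) Filter.atTop Filter.atTop :=
    (tendsto_rpow_atTop (by norm_num)).comp tendsto_natCast_atTop_atTop
  have h2 : ∀ᶠ u : ℝ in Filter.atTop, 100 ≤ u ∧ Real.log u ≤ u / 16 := by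
    have h3 := Real.isLittleO_log_id_atTop.bound (by norm_num : (0 : ℝ) < 1 / 16)
    filter_upwards [h3, Filter.eventually_ge_atTop (100 : ℝ)] with u hu hu2
    refine ⟨hu2, ?_⟩
    rw [Real.norm_eq_abs, Real.norm_eq_abs, id_eq, abs_of_nonneg (by linarith : (0 : ℝ) ≤ u)] at hu
    linarith [le_abs_self (Real.log u)]
  exact h1.eventually h2

lemma small (u L : ℝ) (hu : 100 ≤ u) (hL1 : 1 ≤ L) (hLu : L * 16 ≤ u) (t : ℝ) (ht : 0 ≤ t)
    (htu : t ≤ u ^ 4) :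
    t * (1 / (u ^ 10) ^ 2 + (u ^ 5 * L / 2 + L ^ 2 / 16 + 2) / (2 * (u ^ 10 - 1))) ≤ 1 / 4 := by
  have hu1 : (1 : ℝ) ≤ u := by linarith
  have hu0 : (0 : ℝ) < u := by linarith
  have h4 : (0 : ℝ) < u ^ 4 := by positivity
  have hu4 : (100 : ℝ) ^ 4 ≤ u ^ 4 := pow_le_pow_left₀ (by norm_num) hu 4
  have hu5 : (100 : ℝ) ^ 5 ≤ u ^ 5 := pow_le_pow_left₀ (by norm_num) hu 5
  have h1 : u ^ 5 * L / 2 + L ^ 2 / 16 + 2 ≤ u ^ 6 / 16 := by
    have a1 : u ^ 5 * L ≤ u ^ 6 / 16 := by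
      have : u ^ 6 = u ^ 5 * u := by ring
      rw [this]
      have := mul_le_mul_of_nonneg_left hLu (by positivity : (0 : ℝ) ≤ u ^ 5)
      linarith
    have a2 : L ^ 2 ≤ u ^ 2 := pow_le_pow_left₀ (by linarith) (by linarith) 2
    have a3 : u ^ 2 * 100 ≤ u ^ 6 := by
      have h6 : u ^ 6 = u ^ 2 * u ^ 4 := by ring
      rw [h6]
      apply mul_le_mul_of_nonneg_left _ (by positivity)
      linarith
    have a4 : (1000000 : ℝ) ≤ u ^ 6 := by
      have h6 : u ^ 6 = u ^ 5 * u := by ring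
      rw [h6]
      nlinarith
    linarith
  have h10 : (1000000 : ℝ) ≤ u ^ 10 := by
    have : u ^ 10 = u ^ 5 * u ^ 5 := by ring
    rw [this]
    nlinarith
  have h2 : (0 : ℝ) < 2 * (u ^ 10 - 1) := by linarith
  have h3 : (u ^ 5 * L / 2 + L ^ 2 / 16 + 2) / (2 * (u ^ 10 - 1)) ≤ 1 / (16 * u ^ 4) := by
    rw [div_le_div_iff₀ h2 (by linarith)]
    have a5 : (u ^ 5 * L / 2 + L ^ 2 / 16 + 2) * (16 * u ^ 4) ≤ u ^ 6 / 16 * (16 * u ^ 4) :=
      mul_le_mul_of_nonneg_right h1 (by linarith)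
    have e2 : u ^ 6 / 16 * (16 * u ^ 4) = u ^ 10 := by ring
    linarith
  have h5 : 1 / (u ^ 10) ^ 2 ≤ 1 / (16 * u ^ 4) := by
    apply one_div_le_one_div_of_le (by linarith)
    have : (u ^ 10) ^ 2 = u ^ 4 * u ^ 16 := by ring
    rw [this]
    have h16 : (16 : ℝ) ≤ u ^ 16 := by
      calc (16 : ℝ) ≤ u := by linarith
        _ = u ^ 1 := (pow_one u).symm
        _ ≤ u ^ 16 := pow_le_pow_right₀ hu1 (by norm_num)
    nlinarith
  have h6 : 0 ≤ (u ^ 5 * L / 2 + L ^ 2 / 16 + 2) / (2 * (u ^ 10 - 1)) :=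
    div_nonneg (by positivity) h2.le
  have h7 : 0 ≤ 1 / (u ^ 10) ^ 2 := by positivity
  calc t * (1 / (u ^ 10) ^ 2 + (u ^ 5 * L / 2 + L ^ 2 / 16 + 2) / (2 * (u ^ 10 - 1)))
      ≤ u ^ 4 * (1 / (16 * u ^ 4) + 1 / (16 * u ^ 4)) :=
        mul_le_mul htu (add_le_add h5 h3) (add_nonneg h7 h6) h4.le
    _ = 1 / 8 := by
        rw [← add_div, mul_div_assoc', div_eq_div_iff (by positivity) (by norm_num)]
        ring
    _ ≤ 1 / 4 := by norm_num

lemma contra (u L w : ℝ) (hu : 100 ≤ u) (hL1 : 1 ≤ L) (hLu : L * 16 ≤ u)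
    (h2 : (5.77 : ℝ) * L ≤ w) (hm : 3 / 32 * (u ^ 5 + L / 4) * w ≤ u ^ 5 * L / 2 + L ^ 2 / 16 + 3) :
    False := by
  have h5 : (0 : ℝ) < u ^ 5 := by positivity
  have h3 : 3 / 32 * u ^ 5 * (5.77 * L) ≤ 3 / 32 * (u ^ 5 + L / 4) * w := by
    apply mul_le_mul _ h2 (by positivity) (by positivity)
    linarith
  have h6 : L ^ 2 ≤ u * L := by
    rw [pow_two]
    exact mul_le_mul_of_nonneg_right (by linarith) (by linarith)
  have h7 : u * 100 ^ 4 ≤ u ^ 5 := by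
    have : u ^ 5 = u * u ^ 4 := by ring
    rw [this]
    exact mul_le_mul_of_nonneg_left (pow_le_pow_left₀ (by norm_num) hu 4) (by linarith)
  have h8 : u * 100 ^ 4 * L ≤ u ^ 5 * L := mul_le_mul_of_nonneg_right h7 (by linarith)
  have h9 : (100 : ℝ) ≤ u * L := by nlinarith
  nlinarith

theorem result : ∃ k₀ : ℕ, ∀ k : ℕ, k₀ ≤ k → ∀ f : ℕ → ℤ, (∀ n, f n = 1 ∨ f n = -1) →
    ∃ a d : ℕ, 1 ≤ a ∧ 1 ≤ d ∧ a + (k - 1) * d ≤ 4 * k ^ 6 ∧
      √(k : ℝ) + Real.log k / 40 ≤ |((∑ i ∈ range k, f (a + i * d) : ℤ) : ℝ)| := by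
  obtain ⟨k₀, hk₀⟩ := Filter.eventually_atTop.1 event
  refine ⟨max k₀ 2, fun k hk f hf => ?_⟩
  obtain ⟨hu, hlog⟩ := hk₀ k (le_trans (le_max_left _ _) hk)
  have hk2 : 2 ≤ k := le_trans (le_max_right _ _) hk
  have hkpos : (0 : ℝ) < k := by
    have : 0 < k := by omega
    exact_mod_cast this
  set u : ℝ := (k : ℝ) ^ (1 / 10 : ℝ) with hudef
  have hku : (k : ℝ) = u ^ 10 := by
    rw [hudef, ← Real.rpow_natCast, ← Real.rpow_mul hkpos.le]
    norm_num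
  have hsq : √(k : ℝ) = u ^ 5 := by
    rw [hku, show u ^ 10 = (u ^ 5) ^ 2 by ring]
    exact Real.sqrt_sq (by positivity)
  set L : ℝ := Real.log u with hL
  have hlogk : Real.log k = 10 * L := by
    rw [hku, Real.log_pow, hL]; norm_num
  have hL1 : 1 ≤ L := by
    rw [hL, Real.le_log_iff_exp_le (by linarith)]
    have := Real.exp_one_lt_d9
    linarith
  by_contra hcon
  push Not at hcon
  set l : ℝ := √(k : ℝ) + Real.log k / 40 with hl
  have hlu : l = u ^ 5 + L / 4 := by rw [hl, hsq, hlogk]; ring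
  have hf2 : ∀ n, ((f n : ℤ) : ℝ) ^ 2 = 1 := by
    intro n
    rcases hf n with h | h <;> rw [h] <;> norm_num
  have hB : Bdd (fun n => ((f n : ℤ) : ℝ)) (4 * k ^ 6) k l := by
    intro a d ha hd had
    have := hcon a d ha hd had
    push_cast at this
    exact this.le
  -- the number of scales
  set q : ℕ := ⌊u ^ 4⌋₊ with hq
  have hu1 : (1 : ℝ) ≤ u := by linarith
  have hq1 : 1 ≤ q := by
    rw [hq, Nat.one_le_floor_iff]
    exact one_le_pow₀ hu1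
  set I : ℕ := Nat.log 2 q with hI
  have hIq : (2 : ℕ) ^ I ≤ q := Nat.pow_log_le_self 2 (by omega)
  have hqI : q < 2 ^ (I + 1) := Nat.lt_pow_succ_log_self (by norm_num) q
  have hqu : (q : ℝ) ≤ u ^ 4 := Nat.floor_le (by positivity)
  have huq : u ^ 4 < q + 1 := Nat.lt_floor_add_one _
  have hIu : (2 : ℝ) ^ I ≤ u ^ 4 := by
    have : ((2 ^ I : ℕ) : ℝ) ≤ q := by exact_mod_cast hIq
    push_cast at this
    linarith
  have hIu2 : u ^ 4 ≤ (2 : ℝ) ^ (I + 1) := by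
    have : ((q + 1 : ℕ) : ℝ) ≤ ((2 ^ (I + 1) : ℕ) : ℝ) := by exact_mod_cast hqI
    push_cast at this
    linarith
  have hIL : 4 * L ≤ (I + 1) * Real.log 2 := by
    have h1 := Real.log_le_log (by positivity) hIu2
    rw [Real.log_pow, Real.log_pow] at h1
    push_cast at h1
    exact h1
  have hp : ∀ n : ℕ, (0 : ℝ) < u ^ n := fun n => by positivity
  have hLu : L * 16 ≤ u := by linarith
  have hu5 : u ^ 5 = u ^ 4 * u := by ring
  have h10 : u ^ 10 = u ^ 5 * u ^ 5 := by ring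
  have hu4big : (100 : ℝ) ^ 4 ≤ u ^ 4 := pow_le_pow_left₀ (by norm_num) hu 4
  have hu5big : (100 : ℝ) ^ 5 ≤ u ^ 5 := pow_le_pow_left₀ (by norm_num) hu 5
  have hlL : l ^ 2 - k = u ^ 5 * L / 2 + L ^ 2 / 16 := by rw [hlu, hku]; ring
  have hmain := main_ineq (fun n => ((f n : ℤ) : ℝ)) k I l hf2 hk2 hB ?_ ?_ ?_ ?_ ?_
  · -- contradiction
    have hlog2 := Real.log_two_lt_d9
    have e1 : l ^ 2 - k + 3 = u ^ 5 * L / 2 + L ^ 2 / 16 + 3 := by rw [hlL]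
    rw [e1] at hmain
    have h1 : 4 * L ≤ (I + 1) * (0.6931471808 : ℝ) := by
      refine hIL.trans ?_
      apply mul_le_mul_of_nonneg_left hlog2.le
      positivity
    have h2 : (5.77 : ℝ) * L ≤ I + 1 := by linarith
    rw [hlu] at hmain
    exact contra u L (I + 1) hu hL1 hLu h2 hmain
  · rw [hlu]
    have : u ^ 5 = u ^ 4 * u := hu5
    have h1 := mul_le_mul_of_nonneg_left hu (hp 4).le
    linarith
  · rw [hlu, hku, h10]
    have h1 := mul_le_mul_of_nonneg_left hu5big (hp 5).le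
    have h2 : u ≤ u ^ 5 := by
      calc u = u ^ 1 := (pow_one u).symm
        _ ≤ u ^ 5 := pow_le_pow_right₀ hu1 (by norm_num)
    linarith
  · have : ((2 ^ I : ℕ) : ℝ) ≤ (k : ℝ) := by
      push_cast
      rw [hku]
      refine hIu.trans ?_
      exact pow_le_pow_right₀ hu1 (by norm_num)
    exact_mod_cast this
  · have e1 : l ^ 2 - k + 2 = u ^ 5 * L / 2 + L ^ 2 / 16 + 2 := by rw [hlL]
    rw [e1]; positivity
  · have e1 : l ^ 2 - k + 2 = u ^ 5 * L / 2 + L ^ 2 / 16 + 2 := by rw [hlL]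
    rw [e1, hku]
    exact small u L hu hL1 hLu _ (by positivity) hIu

end Pool.Agent.Results.MP_164296_co.BeyondSqrt
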