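import Pool.Agent.APD.CMP
import Pool.Agent.APD.AVG
import Pool.Agent.APD.KER
import Pool.Agent.APD.PAR
import Pool.Agent.APD.DEC
import Pool.Agent.APD.LFT
import Pool.Agent.APD.RGT
import Pool.Agent.APD.FEJ
import Pool.Agent.APD.BEY

/-!
# MP_164296_co: a cubic bound for `N(k, √k + 1/20)`
-/

namespace Pool.Agent.Results.MP_164296_co.CubicAtSqrt

open Finset

/-- Every `f : {1, ..., N} → {-1, 1}` has a `k`-term arithmetic progression
`a, a + d, ..., a + (k-1) d` in `{1, ..., N}` (with `a ≥ 1`, `d ≥ 1`) with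
`|f(a) + ... + f(a + (k-1) d)| ≥ ℓ`. -/
def HasProgression (k N : ℕ) (ℓ : ℝ) : Prop :=
  ∀ f : ℕ → ℤ, (∀ n, 1 ≤ n → n ≤ N → f n = 1 ∨ f n = -1) →
    ∃ a d : ℕ, 1 ≤ a ∧ 1 ≤ d ∧ a + (k - 1) * d ≤ N ∧
      ℓ ≤ |((∑ j ∈ range k, f (a + j * d) : ℤ) : ℝ)|

/-- The number `N(k, ℓ)`: the least `N ≥ 1` with `HasProgression k N ℓ` (only used in the theorem
together with the existence of such an `N`). -/
noncomputable def Nkl (k : ℕ) (ℓ : ℝ) : ℕ := sInf {N : ℕ | 1 ≤ N ∧ HasProgression k N ℓ}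

/-- extension of `f` to the integers -/
noncomputable def ext (f : ℕ → ℤ) : ℤ → ℝ := fun x => (f x.toNat : ℝ)

lemma S_ext (f : ℕ → ℤ) (k a d : ℕ) :
    Pool.Agent.APD.S (ext f) (d : ℤ) k (a : ℤ) = ((∑ j ∈ range k, f (a + j * d) : ℤ) : ℝ) := by
  unfold Pool.Agent.APD.S ext
  push_cast
  apply Finset.sum_congr rfl
  intro j _
  have : ((a : ℤ) + (j : ℤ) * (d : ℤ)) = ((a + j * d : ℕ) : ℤ) := by push_cast; ring
  rw [this, Int.toNat_natCast]

/-- core theorem -/
theorem core (k N : ℕ) (s : ℝ) (hk : 1 ≤ k) (hs0 : 0 ≤ s) (hsk : s < k)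
    (hN : 184320 * (k : ℝ) ^ 4 / (k - s) ^ 2 ≤ N) (f : ℕ → ℤ)
    (hf : ∀ n, 1 ≤ n → n ≤ N → f n = 1 ∨ f n = -1) :
    ∃ a d : ℕ, 1 ≤ a ∧ 1 ≤ d ∧ a + (k - 1) * d ≤ N ∧
      s < ((∑ j ∈ range k, f (a + j * d) : ℤ) : ℝ) ^ 2 := by
  by_contra hcon
  push Not at hcon
  have hkr : (1 : ℝ) ≤ k := by exact_mod_cast hk
  have hks : 0 < (k : ℝ) - s := by linarith
  set r : ℝ := (k : ℝ) ^ 2 / (k - s) with hr
  have hrk : (k : ℝ) ≤ r := by
    rw [hr, le_div_iff₀ hks]
    nlinarith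
  set D : ℕ := ⌈2 * r⌉₊ with hD
  have hD1 : 2 * r ≤ D := Nat.le_ceil _
  have hD2 : (D : ℝ) < 2 * r + 1 := Nat.ceil_lt_add_one (by linarith)
  have hD3 : (D : ℝ) ≤ 3 * r := by linarith
  set V : ℕ := 960 * D * (k + D) with hV
  have hVN : ((16 * V : ℕ) : ℝ) ≤ N := by
    refine le_trans ?_ hN
    have e : 184320 * (k : ℝ) ^ 4 / (k - s) ^ 2 = 184320 * r ^ 2 := by
      rw [hr]
      field_simp
    rw [e, hV]
    push_cast
    have h1 : (D : ℝ) * (k + D) ≤ (3 * r) * (r + 3 * r) := by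
      apply mul_le_mul hD3 (by linarith) (by positivity) (by linarith)
    nlinarith
  have hVN' : 16 * V ≤ N := by exact_mod_cast hVN
  have hDk : 2 * (k : ℝ) ^ 2 ≤ D * (k - s) := by
    have h1 : 2 * r * (k - s) ≤ D * (k - s) := mul_le_mul_of_nonneg_right hD1 hks.le
    have h2 : 2 * r * (k - s) = 2 * (k : ℝ) ^ 2 := by
      rw [hr]
      field_simp
    linarith
  apply Pool.Agent.APD.main (Pool.Agent.APD.cmp_proof Pool.Agent.APD.ker_proof
    Pool.Agent.APD.par_proof) Pool.Agent.APD.dec_proof Pool.Agent.APD.lft_proof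
    Pool.Agent.APD.rgt_proof Pool.Agent.APD.fej_proof k D V s (ext f) hk hs0 hsk hDk le_rfl
  · intro x hx1 hx2
    have hx3 : f x.toNat = 1 ∨ f x.toNat = -1 := by
      apply hf
      · omega
      · omega
    unfold ext
    rcases hx3 with h | h <;> rw [h] <;> norm_num
  · intro x d hd hx1 hx2
    obtain ⟨a, rfl⟩ : ∃ a : ℕ, x = (a : ℤ) := ⟨x.toNat, by omega⟩
    rw [S_ext]
    apply hcon a d (by omega) hd
    have h3 : ((k - 1 : ℕ) : ℤ) = (k : ℤ) - 1 := by push_cast [hk]; ring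
    have h4 : ((a + (k - 1) * d : ℕ) : ℤ) ≤ ((16 * V : ℕ) : ℤ) := by
      push_cast [h3]
      push_cast at hx2
      linarith
    have h5 : a + (k - 1) * d ≤ 16 * V := by exact_mod_cast h4
    omega

/-- the sum of `k` signs has the parity of `k` -/
lemma parity (k : ℕ) (g : ℕ → ℤ) (hg : ∀ j, j < k → g j = 1 ∨ g j = -1) :
    (∑ j ∈ range k, g j).natAbs % 2 = k % 2 := by
  induction k with
  | zero => simp
  | succ k ih =>
    rw [Finset.sum_range_succ]
    have h1 := ih (fun j hj => hg j (by omega))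
    rcases hg k (by omega) with h | h <;> rw [h] <;> omega

/-- beyond the square root: the cubic bound -/
theorem beyond (k N : ℕ) (hk : 2 ≤ k) (hN : 63000000 * k ^ 3 ≤ N) (f : ℕ → ℤ)
    (hf : ∀ n, 1 ≤ n → n ≤ N → f n = 1 ∨ f n = -1) :
    ∃ a d : ℕ, 1 ≤ a ∧ 1 ≤ d ∧ a + (k - 1) * d ≤ N ∧
      Real.sqrt k + 1 / 20 ≤ |((∑ j ∈ range k, f (a + j * d) : ℤ) : ℝ)| := by
  classical
  by_contra hcon
  push Not at hcon
  have hkr : (2 : ℝ) ≤ k := by exact_mod_cast hk
  have hNr : 63000000 * (k : ℝ) ^ 3 ≤ N := by exact_mod_cast hN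
  set r : ℝ := Real.sqrt k with hr
  have hr2 : r ^ 2 = k := Real.sq_sqrt (by linarith)
  have hr1 : 1 ≤ r := by
    rw [hr, Real.one_le_sqrt]
    linarith
  have hr0 : 0 ≤ r := by linarith
  set P : ℕ → Prop := fun b => b % 2 = k % 2 ∧ (b : ℝ) < r + 1 / 20 with hP
  set a : ℕ := Nat.findGreatest P k with ha
  have hPa : P a := by
    have h0 : P (k % 2) := by
      refine ⟨by omega, ?_⟩
      have : ((k % 2 : ℕ) : ℝ) ≤ 1 := by
        have : k % 2 ≤ 1 := by omega
        exact_mod_cast this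
      linarith
    exact Nat.findGreatest_spec (m := k % 2) (by omega) h0
  have hmax : ∀ b : ℕ, b ≤ k → P b → b ≤ a := fun b hb hPb => Nat.le_findGreatest hb hPb
  -- every sum is `± a` or at most `a - 2`
  have hgap : ∀ x d : ℕ, 1 ≤ x → 1 ≤ d → x + (k - 1) * d ≤ N →
      (∑ j ∈ range k, f (x + j * d)).natAbs = a ∨
      (∑ j ∈ range k, f (x + j * d)).natAbs + 2 ≤ a := by
    intro x d hx hd hxd
    have hfj : ∀ j, j < k → f (x + j * d) = 1 ∨ f (x + j * d) = -1 := by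
      intro j hj
      have h1 : j * d ≤ (k - 1) * d := Nat.mul_le_mul_right d (by omega)
      exact hf _ (by omega) (by omega)
    have hpar := parity k (fun j => f (x + j * d)) hfj
    set T : ℤ := ∑ j ∈ range k, f (x + j * d) with hT
    have hTk : T.natAbs ≤ k := by
      have h1 : |T| ≤ ∑ j ∈ range k, |f (x + j * d)| := Finset.abs_sum_le_sum_abs _ _
      have h2 : ∑ j ∈ range k, |f (x + j * d)| = k := by
        rw [Finset.sum_congr rfl (g := fun _ => (1 : ℤ))]
        · simp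
        · intro j hj
          rcases hfj j (Finset.mem_range.mp hj) with h | h <;> rw [h] <;> norm_num
      rw [h2] at h1
      have h3 : (T.natAbs : ℤ) = |T| := Int.natCast_natAbs T
      omega
    have hlt := hcon x d hx hd hxd
    have hPT : P T.natAbs := by
      refine ⟨hpar, ?_⟩
      have : ((T.natAbs : ℕ) : ℝ) = |(T : ℝ)| := by
        rw [Nat.cast_natAbs, Int.cast_abs]
      rw [this]
      exact hlt
    have h1 := hmax _ hTk hPT
    have h2 := hPa.1
    have h3 := hPT.1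
    omega
  have haN : (a : ℝ) < r + 1 / 20 := hPa.2
  by_cases hcase : (a : ℝ) ^ 2 ≤ k - r / 2
  · -- first case: the core theorem
    have hpos : 0 < (k : ℝ) - (a : ℝ) ^ 2 := by linarith
    obtain ⟨x, d, hx, hd, hxd, hs⟩ := core k N ((a : ℝ) ^ 2) (by omega) (by positivity)
      (by linarith) (by
        have h1 : (k : ℝ) / 4 ≤ (k - (a : ℝ) ^ 2) ^ 2 := by
          have h2 : r / 2 ≤ k - (a : ℝ) ^ 2 := by linarith
          have h3 : (r / 2) ^ 2 ≤ (k - (a : ℝ) ^ 2) ^ 2 := pow_le_pow_left₀ (by linarith) h2 2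
          have h4 : (r / 2) ^ 2 = k / 4 := by rw [div_pow, hr2]; norm_num
          linarith
        have h2 : 184320 * (k : ℝ) ^ 4 / (k - (a : ℝ) ^ 2) ^ 2 ≤ 184320 * (k : ℝ) ^ 4 / (k / 4) :=
          div_le_div_of_nonneg_left (by positivity) (by positivity) h1
        have h3 : 184320 * (k : ℝ) ^ 4 / (k / 4) = 737280 * (k : ℝ) ^ 3 := by
          field_simp
          ring
        have h4 : (0 : ℝ) ≤ (k : ℝ) ^ 3 := by positivity
        linarith) f hf
    have h1 := hgap x d hx hd hxd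
    set T : ℤ := ∑ j ∈ range k, f (x + j * d) with hT
    have h2 : T.natAbs ≤ a := by omega
    have h3 : ((T : ℝ)) ^ 2 = ((T.natAbs : ℕ) : ℝ) ^ 2 := by
      rw [Nat.cast_natAbs, Int.cast_abs, sq_abs]
    rw [h3] at hs
    have h4 : ((T.natAbs : ℕ) : ℝ) ≤ a := by exact_mod_cast h2
    have h5 : ((T.natAbs : ℕ) : ℝ) ^ 2 ≤ (a : ℝ) ^ 2 := pow_le_pow_left₀ (by positivity) h4 2
    linarith
  · -- second case
    push Not at hcase
    have ha2 : 2 ≤ a := by
      by_contra hc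
      have h1 : (a : ℝ) ≤ 1 := by
        have : a ≤ 1 := by omega
        exact_mod_cast this
      have h2 : (a : ℝ) ^ 2 ≤ 1 := by
        have h0 : (0 : ℝ) ≤ a := by positivity
        nlinarith
      nlinarith
    have ha2r : (2 : ℝ) ≤ a := by exact_mod_cast ha2
    have hk4 : 4 ≤ k := by
      by_contra hc
      have h1 : (k : ℝ) ≤ 3 := by
        have : k ≤ 3 := by omega
        exact_mod_cast this
      nlinarith
    have hk4r : (4 : ℝ) ≤ k := by exact_mod_cast hk4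
    have hr22 : 2 ≤ r := by
      rw [hr]
      exact Real.le_sqrt_of_sq_le (by linarith)
    have hrk : 2 * r ≤ k := by nlinarith
    set R : ℕ := ⌈r⌉₊ with hR
    have hR1 : r ≤ R := Nat.le_ceil _
    have hR2 : (R : ℝ) ≤ 1.5 * r := by
      have := Nat.ceil_lt_add_one hr0
      linarith
    set D : ℕ := 40 * k * R with hD
    set V : ℕ := 1728000 * k ^ 2 * R ^ 2 with hV
    have hVN : 16 * V ≤ N := by
      have h1 : ((16 * V : ℕ) : ℝ) ≤ 63000000 * (k : ℝ) ^ 3 := by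
        rw [hV]
        push_cast
        have h2 : (R : ℝ) ^ 2 ≤ 2.25 * k := by
          have : (R : ℝ) ^ 2 ≤ (1.5 * r) ^ 2 := pow_le_pow_left₀ (by positivity) hR2 2
          nlinarith
        have h3 : (k : ℝ) ^ 2 * (R : ℝ) ^ 2 ≤ (k : ℝ) ^ 2 * (2.25 * k) :=
          mul_le_mul_of_nonneg_left h2 (by positivity)
        have h4 : (0 : ℝ) ≤ (k : ℝ) ^ 3 := by positivity
        nlinarith
      have h2 : ((16 * V : ℕ) : ℝ) ≤ N := h1.trans hNr
      exact_mod_cast h2
    have hDr : (D : ℝ) = 40 * k * R := by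
      rw [hD]
      push_cast
      ring
    apply Pool.Agent.APD.bey (Pool.Agent.APD.cmp_proof Pool.Agent.APD.ker_proof
      Pool.Agent.APD.par_proof) Pool.Agent.APD.dec_proof Pool.Agent.APD.lft_proof
      Pool.Agent.APD.rgt_proof Pool.Agent.APD.fej_proof k D V (a : ℝ) r (ext f) hk4 hr22 hr2 ha2r
    · linarith
    · have h1 : (a : ℝ) ^ 2 ≤ (r + 1 / 20) ^ 2 := pow_le_pow_left₀ (by positivity) haN.le 2
      nlinarith
    · rw [hDr]
      exact mul_le_mul_of_nonneg_left hR1 (by positivity)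
    · rw [hDr, hV]
      push_cast
      have hR22 : (2 : ℝ) ≤ R := by linarith
      have h1 : (k : ℝ) + 1.1 * (40 * k * R) ≤ 45 * k * R := by nlinarith
      have h2 : 38400 * (k : ℝ) * r * (k + 1.1 * (40 * k * R)) ≤ 38400 * (k : ℝ) * R * (45 * k * R) := by
        apply mul_le_mul _ h1 (by positivity) (by positivity)
        exact mul_le_mul_of_nonneg_left hR1 (by positivity)
      refine h2.trans (le_of_eq ?_)
      ring
    · intro x hx1 hx2
      have hx3 : f x.toNat = 1 ∨ f x.toNat = -1 := by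
        apply hf
        · omega
        · omega
      unfold ext
      rcases hx3 with h | h <;> rw [h] <;> norm_num
    · intro x d hd hx1 hx2
      obtain ⟨y, rfl⟩ : ∃ y : ℕ, x = (y : ℤ) := ⟨x.toNat, by omega⟩
      rw [S_ext]
      have h3 : ((k - 1 : ℕ) : ℤ) = (k : ℤ) - 1 := by
        have : 1 ≤ k := by omega
        push_cast [this]
        ring
      have h4 : ((y + (k - 1) * d : ℕ) : ℤ) ≤ ((16 * V : ℕ) : ℤ) := by
        rw [Nat.cast_add, Nat.cast_mul, h3]
        exact hx2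
      have h5 : y + (k - 1) * d ≤ 16 * V := by exact_mod_cast h4
      have h6 := hgap y d (by omega) hd (by omega)
      set T : ℤ := ∑ j ∈ range k, f (y + j * d) with hT
      have h7 : |(T : ℝ)| = ((T.natAbs : ℕ) : ℝ) := by
        rw [Nat.cast_natAbs, Int.cast_abs]
      rw [h7]
      rcases h6 with h | h
      · left
        rw [h]
      · right
        have : ((T.natAbs + 2 : ℕ) : ℝ) ≤ a := by exact_mod_cast h
        push_cast at this
        push_cast
        linarith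

/-- **Theorem.** `N(k, √k + 1/20) ≤ 63 · 10⁶ k³` for all `k ≥ 2`. -/
theorem result : ∀ k : ℕ, 2 ≤ k →
    (∃ N : ℕ, 1 ≤ N ∧ HasProgression k N (Real.sqrt k + 1 / 20)) ∧
      Nkl k (Real.sqrt k + 1 / 20) ≤ 63000000 * k ^ 3 := by
  intro k hk
  have hmem : 1 ≤ 63000000 * k ^ 3 ∧ HasProgression k (63000000 * k ^ 3)
      (Real.sqrt k + 1 / 20) := by
    refine ⟨?_, fun f hf => beyond k _ hk le_rfl f hf⟩
    have : 0 < k ^ 3 := by positivity
    omega
  exact ⟨⟨_, hmem⟩, Nat.sInf_le hmem⟩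

end Pool.Agent.Results.MP_164296_co.CubicAtSqrt
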