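import Pool.Agent.APD.CMP
import Pool.Agent.APD.AVG
import Pool.Agent.APD.KER
import Pool.Agent.APD.PAR
import Pool.Agent.APD.DEC
import Pool.Agent.APD.LFT
import Pool.Agent.APD.RGT
import Pool.Agent.APD.FEJ
import Pool.Agent.APD.LOW

/-!
# MP_164296_co: the optimal quadratic bound for `N(k, c √k)`, `0 ≤ c < 1`, and for `N(k, 2)`
-/

namespace Pool.Agent.Results.MP_164296_co.QuadraticBound

open Finset

/-- Every `f : {1, ..., N} → {-1, 1}` has a `k`-term arithmetic progression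
`a, a + d, ..., a + (k-1) d` in `{1, ..., N}` (with `a ≥ 1`, `d ≥ 1`) with
`|f(a) + ... + f(a + (k-1) d)| ≥ ℓ`. -/
def HasProgression (k N : ℕ) (ℓ : ℝ) : Prop :=
  ∀ f : ℕ → ℤ, (∀ n, 1 ≤ n → n ≤ N → f n = 1 ∨ f n = -1) →
    ∃ a d : ℕ, 1 ≤ a ∧ 1 ≤ d ∧ a + (k - 1) * d ≤ N ∧
      ℓ ≤ |((∑ j ∈ range k, f (a + j * d) : ℤ) : ℝ)|

/-- The number `N(k, ℓ)`: the least `N ≥ 1` with `HasProgression k N ℓ` (only used in the theorem
together with the existence of such an `N`). -/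
noncomputable def Nkl (k : ℕ) (ℓ : ℝ) : ℕ := sInf {N : ℕ | 1 ≤ N ∧ HasProgression k N ℓ}

/-- extension of `f` to the integers -/
noncomputable def ext (f : ℕ → ℤ) : ℤ → ℝ := fun x => (f x.toNat : ℝ)

lemma S_ext (f : ℕ → ℤ) (k a d : ℕ) :
    Pool.Agent.APD.S (ext f) (d : ℤ) k (a : ℤ) = ((∑ j ∈ range k, f (a + j * d) : ℤ) : ℝ) := by
  unfold Pool.Agent.APD.S ext
  push_cast
  apply Finset.sum_congr rfl
  intro j _
  have : ((a : ℤ) + (j : ℤ) * (d : ℤ)) = ((a + j * d : ℕ) : ℤ) := by push_cast; ring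
  rw [this, Int.toNat_natCast]

/-- core theorem -/
theorem core (k N : ℕ) (s : ℝ) (hk : 1 ≤ k) (hs0 : 0 ≤ s) (hsk : s < k)
    (hN : 184320 * (k : ℝ) ^ 4 / (k - s) ^ 2 ≤ N) (f : ℕ → ℤ)
    (hf : ∀ n, 1 ≤ n → n ≤ N → f n = 1 ∨ f n = -1) :
    ∃ a d : ℕ, 1 ≤ a ∧ 1 ≤ d ∧ a + (k - 1) * d ≤ N ∧
      s < ((∑ j ∈ range k, f (a + j * d) : ℤ) : ℝ) ^ 2 := by
  by_contra hcon
  push Not at hcon
  have hkr : (1 : ℝ) ≤ k := by exact_mod_cast hk
  have hks : 0 < (k : ℝ) - s := by linarith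
  set r : ℝ := (k : ℝ) ^ 2 / (k - s) with hr
  have hrk : (k : ℝ) ≤ r := by
    rw [hr, le_div_iff₀ hks]
    nlinarith
  set D : ℕ := ⌈2 * r⌉₊ with hD
  have hD1 : 2 * r ≤ D := Nat.le_ceil _
  have hD2 : (D : ℝ) < 2 * r + 1 := Nat.ceil_lt_add_one (by linarith)
  have hD3 : (D : ℝ) ≤ 3 * r := by linarith
  set V : ℕ := 960 * D * (k + D) with hV
  have hVN : ((16 * V : ℕ) : ℝ) ≤ N := by
    refine le_trans ?_ hN
    have e : 184320 * (k : ℝ) ^ 4 / (k - s) ^ 2 = 184320 * r ^ 2 := by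
      rw [hr]
      field_simp
    rw [e, hV]
    push_cast
    have h1 : (D : ℝ) * (k + D) ≤ (3 * r) * (r + 3 * r) := by
      apply mul_le_mul hD3 (by linarith) (by positivity) (by linarith)
    nlinarith
  have hVN' : 16 * V ≤ N := by exact_mod_cast hVN
  have hDk : 2 * (k : ℝ) ^ 2 ≤ D * (k - s) := by
    have h1 : 2 * r * (k - s) ≤ D * (k - s) := mul_le_mul_of_nonneg_right hD1 hks.le
    have h2 : 2 * r * (k - s) = 2 * (k : ℝ) ^ 2 := by
      rw [hr]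
      field_simp
    linarith
  apply Pool.Agent.APD.main (Pool.Agent.APD.cmp_proof Pool.Agent.APD.ker_proof
    Pool.Agent.APD.par_proof) Pool.Agent.APD.dec_proof Pool.Agent.APD.lft_proof
    Pool.Agent.APD.rgt_proof Pool.Agent.APD.fej_proof k D V s (ext f) hk hs0 hsk hDk le_rfl
  · intro x hx1 hx2
    have hx3 : f x.toNat = 1 ∨ f x.toNat = -1 := by
      apply hf
      · omega
      · omega
    unfold ext
    rcases hx3 with h | h <;> rw [h] <;> norm_num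
  · intro x d hd hx1 hx2
    obtain ⟨a, rfl⟩ : ∃ a : ℕ, x = (a : ℤ) := ⟨x.toNat, by omega⟩
    rw [S_ext]
    apply hcon a d (by omega) hd
    have h3 : ((k - 1 : ℕ) : ℤ) = (k : ℤ) - 1 := by push_cast [hk]; ring
    have h4 : ((a + (k - 1) * d : ℕ) : ℤ) ≤ ((16 * V : ℕ) : ℤ) := by
      push_cast [h3]
      push_cast at hx2
      linarith
    have h5 : a + (k - 1) * d ≤ 16 * V := by exact_mod_cast h4
    omega

/-- from the core theorem to `N(k, ℓ)` -/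
lemma Nkl_le (k : ℕ) (ℓ s B : ℝ) (hk : 1 ≤ k) (hs0 : 0 ≤ s) (hsk : s < k)
    (hℓ : ∀ t : ℤ, s < (t : ℝ) ^ 2 → (t : ℝ) ^ 2 ≤ (k : ℝ) ^ 2 → ℓ ≤ |(t : ℝ)|)
    (hB : 184320 * (k : ℝ) ^ 4 / (k - s) ^ 2 + 1 ≤ B) :
    (∃ N : ℕ, 1 ≤ N ∧ HasProgression k N ℓ) ∧ (Nkl k ℓ : ℝ) ≤ B := by
  have hkr : (1 : ℝ) ≤ k := by exact_mod_cast hk
  have hks : 0 < (k : ℝ) - s := by linarith
  set A : ℝ := 184320 * (k : ℝ) ^ 4 / (k - s) ^ 2 with hA
  have hA0 : 0 < A := by rw [hA]; positivity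
  have hmem : 1 ≤ ⌈A⌉₊ ∧ HasProgression k ⌈A⌉₊ ℓ := by
    refine ⟨Nat.one_le_iff_ne_zero.mpr (Nat.ceil_pos.mpr hA0).ne', ?_⟩
    intro f hf
    obtain ⟨a, d, ha, hd, had, hsum⟩ := core k ⌈A⌉₊ s hk hs0 hsk (Nat.le_ceil _) f hf
    refine ⟨a, d, ha, hd, had, hℓ _ hsum ?_⟩
    have hab : |((∑ j ∈ range k, f (a + j * d) : ℤ) : ℝ)| ≤ k := by
      push_cast
      refine (Finset.abs_sum_le_sum_abs _ _).trans ?_
      calc ∑ j ∈ range k, |((f (a + j * d) : ℤ) : ℝ)| ≤ ∑ j ∈ range k, (1 : ℝ) := by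
            apply Finset.sum_le_sum
            intro j hj
            rw [Finset.mem_range] at hj
            have h1 : j * d ≤ (k - 1) * d := Nat.mul_le_mul_right d (by omega)
            rcases hf (a + j * d) (by omega) (by omega) with h | h <;> rw [h] <;> norm_num
        _ = k := by simp
    exact sq_le_sq' (by linarith [abs_le.mp hab]) (abs_le.mp hab).2
  refine ⟨⟨_, hmem⟩, ?_⟩
  have h1 : Nkl k ℓ ≤ ⌈A⌉₊ := Nat.sInf_le hmem
  have h2 : (⌈A⌉₊ : ℝ) < A + 1 := Nat.ceil_lt_add_one hA0.le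
  have h3 : (Nkl k ℓ : ℝ) ≤ ⌈A⌉₊ := by exact_mod_cast h1
  linarith

/-- **Theorem.**
(1) `N(k, c √k) ≤ 200000 k² / (1 - c²)²` for all `k ≥ 1` and `0 ≤ c < 1`.
(2) `N(k, 2) ≤ 10⁶ k²` for all `k ≥ 2`.
(3) `N(p, 2) ≥ p² - p + 1` for all primes `p`, so the order `k²` in (1) and (2) is optimal. -/
theorem result :
    (∀ k : ℕ, 1 ≤ k → ∀ c : ℝ, 0 ≤ c → c < 1 →
      (∃ N : ℕ, 1 ≤ N ∧ HasProgression k N (c * Real.sqrt k)) ∧
      (Nkl k (c * Real.sqrt k) : ℝ) ≤ 200000 * (k : ℝ) ^ 2 / (1 - c ^ 2) ^ 2) ∧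
    (∀ k : ℕ, 2 ≤ k → (∃ N : ℕ, 1 ≤ N ∧ HasProgression k N 2) ∧
      (Nkl k 2 : ℝ) ≤ 10 ^ 6 * (k : ℝ) ^ 2) ∧
    (∀ p : ℕ, p.Prime → p ^ 2 - p + 1 ≤ Nkl p 2) := by
  have part2 : ∀ k : ℕ, 2 ≤ k → (∃ N : ℕ, 1 ≤ N ∧ HasProgression k N 2) ∧
      (Nkl k 2 : ℝ) ≤ 10 ^ 6 * (k : ℝ) ^ 2 := by
    intro k hk
    have hkr : (2 : ℝ) ≤ k := by exact_mod_cast hk
    apply Nkl_le k 2 1 _ (by omega) (by norm_num) (by linarith)
    · intro t ht _
      have h1 : (1 : ℤ) < t ^ 2 := by exact_mod_cast ht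
      have h2 : 2 ≤ |t| := by
        by_contra hc
        push Not at hc
        have h3 : |t| ≤ 1 := by omega
        have h4 : t ^ 2 ≤ 1 := by
          rw [← sq_abs]
          have := abs_nonneg t
          nlinarith
        omega
      have : ((2 : ℤ) : ℝ) ≤ ((|t| : ℤ) : ℝ) := by exact_mod_cast h2
      rw [Int.cast_abs] at this
      exact_mod_cast this
    · have h1 : (k : ℝ) / 2 ≤ k - 1 := by linarith
      have h2 : 184320 * (k : ℝ) ^ 4 / (k - 1) ^ 2 ≤ 184320 * (k : ℝ) ^ 4 / (k / 2) ^ 2 := by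
        apply div_le_div_of_nonneg_left (by positivity) (by positivity)
        exact pow_le_pow_left₀ (by linarith) h1 2
      have h3 : 184320 * (k : ℝ) ^ 4 / (k / 2) ^ 2 = 737280 * (k : ℝ) ^ 2 := by
        field_simp
        ring
      nlinarith
  refine ⟨?_, part2, ?_⟩
  · intro k hk c hc0 hc1
    have hkr : (1 : ℝ) ≤ k := by exact_mod_cast hk
    have hc2 : 0 < 1 - c ^ 2 := by nlinarith
    -- the case of squares not at most `c² k`: use strictness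
    have key : (∃ N : ℕ, 1 ≤ N ∧ HasProgression k N (c * Real.sqrt k)) ∧
        (Nkl k (c * Real.sqrt k) : ℝ) ≤ 200000 * (k : ℝ) ^ 2 / (1 - c ^ 2) ^ 2 := by
      apply Nkl_le k _ (c ^ 2 * k) _ hk (by positivity) (by nlinarith)
      · intro t ht _
        have h1 : (c * Real.sqrt k) ^ 2 = c ^ 2 * k := by
          rw [mul_pow, Real.sq_sqrt (by linarith)]
        rw [← h1] at ht
        exact (sq_lt_sq.mp ht).le.trans' (le_abs_self _)
      · have e : 184320 * (k : ℝ) ^ 4 / (k - c ^ 2 * k) ^ 2 =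
            184320 * (k : ℝ) ^ 2 / (1 - c ^ 2) ^ 2 := by
          have : (k : ℝ) - c ^ 2 * k = k * (1 - c ^ 2) := by ring
          rw [this, mul_pow]
          field_simp
        rw [e]
        have h1 : (1 : ℝ) ≤ (k : ℝ) ^ 2 / (1 - c ^ 2) ^ 2 := by
          rw [le_div_iff₀ (by positivity)]
          have h3 : (1 - c ^ 2) ^ 2 ≤ 1 := by
            apply pow_le_one₀ hc2.le
            nlinarith
          nlinarith
        have e2 : 200000 * (k : ℝ) ^ 2 / (1 - c ^ 2) ^ 2 =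
            184320 * (k : ℝ) ^ 2 / (1 - c ^ 2) ^ 2 + 15680 * ((k : ℝ) ^ 2 / (1 - c ^ 2) ^ 2) := by
          ring
        rw [e2]
        linarith
    exact key
  · intro p hp
    have hp2 := hp.two_le
    obtain ⟨hex, -⟩ := part2 p hp2
    have hmem : 1 ≤ Nkl p 2 ∧ HasProgression p (Nkl p 2) 2 := Nat.sInf_mem hex
    by_contra hcon
    push Not at hcon
    obtain ⟨g, hg, hgs⟩ := Pool.Agent.APD.low_proof p hp
    set f : ℕ → ℤ := fun n => if g (n : ℤ) = 1 then 1 else -1 with hf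
    have hfg : ∀ n : ℕ, ((f n : ℤ) : ℝ) = g (n : ℤ) := by
      intro n
      rw [hf]
      dsimp only
      rcases hg (n : ℤ) with h | h
      · rw [if_pos h, h]
        norm_num
      · rw [if_neg (by rw [h]; norm_num), h]
        norm_num
    obtain ⟨a, d, ha, hd, had, hsum⟩ := hmem.2 f (by
      intro n _ _
      rw [hf]
      dsimp only
      split_ifs
      · exact Or.inl rfl
      · exact Or.inr rfl)
    have hdp : d < p := by
      by_contra hc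
      push Not at hc
      have h1 : (p - 1) * p ≤ (p - 1) * d := Nat.mul_le_mul_left _ hc
      have h2 : (p - 1) * p = p ^ 2 - p := by
        rw [Nat.sub_mul, one_mul, sq]
      omega
    have h1 := hgs (a : ℤ) d hd hdp
    have h2 : Pool.Agent.APD.S g (d : ℤ) p (a : ℤ) =
        ((∑ j ∈ range p, f (a + j * d) : ℤ) : ℝ) := by
      unfold Pool.Agent.APD.S
      push_cast
      apply Finset.sum_congr rfl
      intro j _
      rw [hfg]
      push_cast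
      rfl
    rw [h2] at h1
    linarith

end Pool.Agent.Results.MP_164296_co.QuadraticBound
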